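import Pool.Agent.H695R3.PP.Stmts

set_option autoImplicit false

open scoped BigOperators ENNReal
open MeasureTheory

namespace Pool.Agent.H146R3.PP

open Pool.Agent.H695R3.PP

lemma isEig_congr {V V' : ℤ → ℝ} {a b : ℤ} (h : ∀ n, a ≤ n → n ≤ b → V n = V' n) {E : ℝ}
    {ψ : ℤ → ℝ} (hE : IsEig V a b E ψ) : IsEig V' a b E ψ := by
  refine ⟨hE.1, hE.2.1, fun n h1 h2 => ?_⟩
  rw [← h n h1 h2]
  exact hE.2.2 n h1 h2

/-- the event for the cut `m` and the site `j` -/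
def BB (L : ℕ) (d κ : ℝ) (m j : ℤ) : Set (ℤ → ℝ) :=
  {V | ∃ lam φ lam' φ', IsEig V (-(L : ℤ)) (m - 1) lam φ ∧ IsEig V m L lam' φ' ∧
    |lam - lam'| ≤ 3 * d ∧ κ ≤ φ' j ^ 2}

lemma measurable_BB (hC : TaskClosed2) (L : ℕ) (d κ : ℝ) (m j : ℤ) :
    MeasurableSet (BB L d κ m j) := by
  let C : Set ((ℝ × (ℤ → ℝ)) × (ℝ × (ℤ → ℝ))) :=
    {p | |p.1.1 - p.2.1| ≤ 3 * d ∧ κ ≤ p.2.2 j ^ 2}
  have hCc : IsClosed C := by
    have h1 : IsClosed {p : (ℝ × (ℤ → ℝ)) × (ℝ × (ℤ → ℝ)) | |p.1.1 - p.2.1| ≤ 3 * d} :=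
      isClosed_le (by fun_prop) (by fun_prop)
    have h2 : IsClosed {p : (ℝ × (ℤ → ℝ)) × (ℝ × (ℤ → ℝ)) | κ ≤ p.2.2 j ^ 2} :=
      isClosed_le (by fun_prop) (by fun_prop)
    exact h1.inter h2
  have h : BB L d κ m j = ⋃ R : ℕ, {V : ℤ → ℝ | ∃ E ψ E' ψ', |E| ≤ (R : ℝ) ∧ |E'| ≤ (R : ℝ) ∧
      IsEig V (-(L : ℤ)) (m - 1) E ψ ∧ IsEig V m L E' ψ' ∧ ((E, ψ), (E', ψ')) ∈ C} := by
    ext V
    simp only [BB, Set.mem_ofPred_eq, Set.mem_iUnion]
    constructor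
    · rintro ⟨lam, φ, lam', φ', h1, h2, h3, h4⟩
      obtain ⟨R, hR⟩ := exists_nat_ge (max |lam| |lam'|)
      exact ⟨R, lam, φ, lam', φ', (le_max_left _ _).trans hR, (le_max_right _ _).trans hR, h1, h2,
        h3, h4⟩
    · rintro ⟨R, lam, φ, lam', φ', _, _, h1, h2, h3, h4⟩
      exact ⟨lam, φ, lam', φ', h1, h2, h3, h4⟩
  rw [h]
  exact MeasurableSet.iUnion fun R => (hC _ _ _ _ _ C hCc).measurableSet

lemma exists_site {V : ℤ → ℝ} {L : ℕ} {m : ℤ} (hm : -(L : ℤ) < m) (hmL : m ≤ L) {E : ℝ}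
    {φ : ℤ → ℝ} (h : IsEig V m L E φ) :
    ∃ j, m ≤ j ∧ j ≤ L ∧ 1 / (2 * (L : ℝ) + 1) ≤ φ j ^ 2 := by
  by_contra hcon
  push Not at hcon
  have h1 : nsq m L φ = 1 := h.2.1
  have hpos : (0:ℝ) < 2 * (L : ℝ) + 1 := by positivity
  have hne : (Finset.Icc m (L : ℤ)).Nonempty := ⟨m, Finset.mem_Icc.2 ⟨le_rfl, hmL⟩⟩
  have h2 : nsq m L φ < ∑ _n ∈ Finset.Icc m (L : ℤ), 1 / (2 * (L : ℝ) + 1) := by
    unfold nsq
    apply Finset.sum_lt_sum_of_nonempty hne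
    intro n hn
    rw [Finset.mem_Icc] at hn
    exact hcon n hn.1 hn.2
  rw [Finset.sum_const, nsmul_eq_mul, Int.card_Icc] at h2
  have h3 : (((L : ℤ) + 1 - m).toNat : ℝ) ≤ 2 * (L : ℝ) + 1 := by
    have : (((L : ℤ) + 1 - m).toNat : ℤ) ≤ 2 * (L : ℤ) + 1 := by
      rw [Int.toNat_of_nonneg (by linarith)]
      linarith
    exact_mod_cast this
  have h4 : (((L : ℤ) + 1 - m).toNat : ℝ) * (1 / (2 * (L : ℝ) + 1)) ≤ 1 := by
    calc (((L : ℤ) + 1 - m).toNat : ℝ) * (1 / (2 * (L : ℝ) + 1)) ≤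
        (2 * (L : ℝ) + 1) * (1 / (2 * (L : ℝ) + 1)) :=
          mul_le_mul_of_nonneg_right h3 (by positivity)
      _ = 1 := by field_simp
  linarith

lemma bad2_subset (hS : TaskSplit) (L : ℕ) (d : ℝ) (V : ℤ → ℝ) (h : Bad2 L d V) :
    ∃ m j : ℤ, -(L : ℤ) < m ∧ m ≤ j ∧ j ≤ L ∧ V ∈ BB L d (1 / (2 * (L : ℝ) + 1)) m j := by
  obtain ⟨E, ψ, E', ψ', h1, h2, h3, h4⟩ := h
  obtain ⟨m, hm1, hm2, lam, φ, lam', φ', h5, h6, h7⟩ :=
    hS V (-(L : ℤ)) L E E' d ψ ψ' (by omega) h1 h2 h3 h4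
  obtain ⟨j, hj1, hj2, hj3⟩ := exists_site hm1 hm2 h6
  exact ⟨m, j, hm1, hj1, hj2, lam, φ, lam', φ', h5, h6, h7, hj3⟩

lemma PZ_BB (hSAP : TaskSAP) (hCard : TaskCard) (hC : TaskClosed2) (ε d : ℝ) (W : ℤ → ℝ) (L : ℕ)
    (hε : 0 < ε) (hd : 0 < d) (m j : ℤ) (hm : -(L : ℤ) < m) (hmj : m ≤ j) (hj : j ≤ L) :
    PZ {x | (fun n => W n + ε * x n) ∈ BB L d (1 / (2 * (L : ℝ) + 1)) m j} ≤
      ENNReal.ofReal (3 * (2 * (L : ℝ) + 1) ^ 2 * d / ε) := by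
  have hpos : (0:ℝ) < 2 * (L : ℝ) + 1 := by positivity
  let A : (ℤ → ℝ) → Set ℝ := fun x =>
    {e | ∃ lam φ, IsEig (fun n => W n + ε * x n) (-(L : ℤ)) (m - 1) lam φ ∧ |e - lam| ≤ 3 * d}
  have hA : ∀ x s, A (Function.update x j s) = A x := by
    have key : ∀ x y : ℤ → ℝ, (∀ n, n ≠ j → x n = y n) → A x ⊆ A y := by
      intro x y hxy e he
      obtain ⟨lam, φ, h1, h2⟩ := he
      refine ⟨lam, φ, isEig_congr (fun n _ hn => ?_) h1, h2⟩
      have : n ≠ j := by omega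
      simp only [hxy n this]
    intro x s
    apply Set.Subset.antisymm
    · exact key _ _ fun n hn => Function.update_of_ne hn s x
    · exact key _ _ fun n hn => (Function.update_of_ne hn s x).symm
  have hmeas : MeasurableSet {x : ℤ → ℝ | (fun n => W n + ε * x n) ∈
      BB L d (1 / (2 * (L : ℝ) + 1)) m j} := by
    have hf : Measurable (fun x : ℤ → ℝ => fun n => W n + ε * x n) := by
      apply measurable_pi_lambda
      intro n
      exact measurable_const.add (measurable_const.mul (measurable_pi_apply n))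
    exact hf (measurable_BB hC L d _ m j)
  have h := hSAP W ε (1 / (2 * (L : ℝ) + 1)) m L j A _ hε (by positivity) hmeas hA (by
    rintro x ⟨lam, φ, lam', φ', h1, h2, h3, h4⟩
    refine ⟨lam', ⟨lam, φ, h1, ?_⟩, φ', h2, h4⟩
    rw [abs_sub_comm]; exact h3)
  refine h.trans ?_
  have hvol : ∀ x, volume (A x) ≤ ENNReal.ofReal ((2 * (L : ℝ) + 1) * (6 * d)) := by
    intro x
    obtain ⟨F, hF1, hF2⟩ := hCard (fun n => W n + ε * x n) (-(L : ℤ)) (m - 1) (by omega)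
    have hsub : A x ⊆ ⋃ lam ∈ F, Set.Icc (lam - 3 * d) (lam + 3 * d) := by
      rintro e ⟨lam, φ, h1, h2⟩
      rw [abs_le] at h2
      refine Set.mem_biUnion (hF2 lam φ h1) ⟨by linarith, by linarith⟩
    calc volume (A x) ≤ volume (⋃ lam ∈ F, Set.Icc (lam - 3 * d) (lam + 3 * d)) :=
          measure_mono hsub
      _ ≤ ∑ lam ∈ F, volume (Set.Icc (lam - 3 * d) (lam + 3 * d)) :=
          measure_biUnion_finset_le _ _
      _ = ∑ _lam ∈ F, ENNReal.ofReal (6 * d) := by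
          refine Finset.sum_congr rfl fun lam _ => ?_
          rw [Real.volume_Icc]
          congr 1; ring
      _ = (F.card : ℝ≥0∞) * ENNReal.ofReal (6 * d) := by
          rw [Finset.sum_const, nsmul_eq_mul]
      _ = ENNReal.ofReal (F.card * (6 * d)) := by
          rw [ENNReal.ofReal_mul (p := (F.card : ℝ)) (by positivity), ENNReal.ofReal_natCast]
      _ ≤ ENNReal.ofReal ((2 * (L : ℝ) + 1) * (6 * d)) := by
          apply ENNReal.ofReal_le_ofReal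
          apply mul_le_mul_of_nonneg_right _ (by positivity)
          have : (F.card : ℤ) ≤ 2 * (L : ℤ) + 1 := by omega
          exact_mod_cast this
  calc ∫⁻ x, ENNReal.ofReal (1 / (2 * ε * (1 / (2 * (L : ℝ) + 1)))) * volume (A x) ∂PZ
      ≤ ∫⁻ _x, ENNReal.ofReal (1 / (2 * ε * (1 / (2 * (L : ℝ) + 1)))) *
          ENNReal.ofReal ((2 * (L : ℝ) + 1) * (6 * d)) ∂PZ :=
        lintegral_mono fun x => mul_le_mul_right (hvol x) _
    _ = ENNReal.ofReal (1 / (2 * ε * (1 / (2 * (L : ℝ) + 1)))) *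
          ENNReal.ofReal ((2 * (L : ℝ) + 1) * (6 * d)) := by
        rw [lintegral_const, measure_univ, mul_one]
    _ = ENNReal.ofReal (3 * (2 * (L : ℝ) + 1) ^ 2 * d / ε) := by
        rw [← ENNReal.ofReal_mul (by positivity)]
        congr 1
        field_simp
        ring

theorem taskG2 : TaskSAP → TaskSplit → TaskCard → TaskClosed2 → TaskG2 := by
  intro hSAP hS hCard hC
  refine ⟨48, by norm_num, ?_⟩
  intro ε d W L hε hd
  set K : ℝ≥0∞ := ENNReal.ofReal (3 * (2 * (L : ℝ) + 1) ^ 2 * d / ε) with hK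
  let s : Finset (ℤ × ℤ) := (Finset.Icc (-(L : ℤ)) L ×ˢ Finset.Icc (-(L : ℤ)) L).filter
    (fun p => -(L : ℤ) < p.1 ∧ p.1 ≤ p.2)
  have hs : (s.card : ℝ) ≤ (2 * (L : ℝ) + 1) ^ 2 := by
    have h1 : s.card ≤ (2 * L + 1) ^ 2 := by
      refine (Finset.card_filter_le _ _).trans ?_
      rw [Finset.card_product, Int.card_Icc]
      have : ((L : ℤ) + 1 - -(L : ℤ)).toNat = 2 * L + 1 := by omega
      rw [this, sq]
    exact_mod_cast h1
  have hsub : {x | Bad2 L d (fun n => W n + ε * x n)} ⊆ ⋃ p ∈ s,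
      {x : ℤ → ℝ | (fun n => W n + ε * x n) ∈ BB L d (1 / (2 * (L : ℝ) + 1)) p.1 p.2} := by
    intro x hx
    obtain ⟨m, j, h1, h2, h3, h4⟩ := bad2_subset hS L d _ hx
    refine Set.mem_biUnion (x := (m, j)) ?_ h4
    simp only [s, Finset.coe_filter, Finset.mem_product, Finset.mem_Icc, Set.mem_ofPred_eq]
    omega
  calc PZ {x | Bad2 L d (fun n => W n + ε * x n)}
      ≤ PZ (⋃ p ∈ s, {x : ℤ → ℝ | (fun n => W n + ε * x n) ∈
          BB L d (1 / (2 * (L : ℝ) + 1)) p.1 p.2}) := measure_mono hsub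
    _ ≤ ∑ p ∈ s, PZ {x : ℤ → ℝ | (fun n => W n + ε * x n) ∈
          BB L d (1 / (2 * (L : ℝ) + 1)) p.1 p.2} := measure_biUnion_finset_le _ _
    _ ≤ ∑ _p ∈ s, K := by
        refine Finset.sum_le_sum fun p hp => ?_
        simp only [s, Finset.mem_filter, Finset.mem_product, Finset.mem_Icc] at hp
        exact PZ_BB hSAP hCard hC ε d W L hε hd p.1 p.2 hp.2.1 hp.2.2 hp.1.2.2
    _ = (s.card : ℝ≥0∞) * K := by rw [Finset.sum_const, nsmul_eq_mul]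
    _ = ENNReal.ofReal (s.card * (3 * (2 * (L : ℝ) + 1) ^ 2 * d / ε)) := by
        rw [ENNReal.ofReal_mul (by positivity), ENNReal.ofReal_natCast]
    _ ≤ ENNReal.ofReal (48 * ((L : ℝ) + 1) ^ 4 * d / ε) := by
        apply ENNReal.ofReal_le_ofReal
        have hL : (0:ℝ) ≤ L := by positivity
        have h2 : (2 * (L : ℝ) + 1) ^ 4 ≤ 16 * ((L : ℝ) + 1) ^ 4 := by
          have : (2 * (L : ℝ) + 1) ^ 4 ≤ (2 * ((L : ℝ) + 1)) ^ 4 :=
            pow_le_pow_left₀ (by positivity) (by linarith) 4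
          calc (2 * (L : ℝ) + 1) ^ 4 ≤ (2 * ((L : ℝ) + 1)) ^ 4 := this
            _ = 16 * ((L : ℝ) + 1) ^ 4 := by ring
        have hq : 0 ≤ d / ε := by positivity
        calc (s.card : ℝ) * (3 * (2 * (L : ℝ) + 1) ^ 2 * d / ε)
            ≤ (2 * (L : ℝ) + 1) ^ 2 * (3 * (2 * (L : ℝ) + 1) ^ 2 * d / ε) :=
              mul_le_mul_of_nonneg_right hs (by positivity)
          _ = 3 * (2 * (L : ℝ) + 1) ^ 4 * (d / ε) := by ring
          _ ≤ 3 * (16 * ((L : ℝ) + 1) ^ 4) * (d / ε) := by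
              apply mul_le_mul_of_nonneg_right _ hq
              linarith
          _ = 48 * ((L : ℝ) + 1) ^ 4 * d / ε := by ring

end Pool.Agent.H146R3.PP
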